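import Pool.Agent.Helper5.FV.Stmts

/-! # F1Y: adding a set of good vertices -/

set_option autoImplicit false

open Finset Pool.Agent.Helper8.UN

namespace Pool.Agent.Helper5.FV

theorem st_F1Y (hCNT : Pool.Agent.Helper8.UN.ST_CNT) : ST_F1Y := by
  intro n D k E W T hT hD hWT
  induction T using Finset.induction_on with
  | empty => simp
  | insert v U hv ih =>
    have hWU' : Disjoint W U := Finset.disjoint_of_subset_right (Finset.subset_insert _ _) hWT
    have hvW : v ∉ W := fun h => (Finset.disjoint_left.1 hWT) h (Finset.mem_insert_self _ _)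
    have i1 := ih (fun y hy => hD y (Finset.mem_insert_of_mem hy)) hWU'
    have hmem : v ∈ W ∪ insert v U := by simp
    have her : (W ∪ insert v U).erase v = W ∪ U := by
      ext w
      simp only [Finset.mem_erase, Finset.mem_union, Finset.mem_insert]
      constructor
      · rintro ⟨h1, h2 | h2 | h2⟩
        · exact Or.inl h2
        · exact absurd h2 h1
        · exact Or.inr h2
      · rintro (h | h)
        · exact ⟨fun e => hvW (e ▸ h), Or.inl h⟩
        · exact ⟨fun e => hv (e ▸ h), Or.inr (Or.inr h)⟩
    obtain ⟨c1, -⟩ := hCNT n k E (W ∪ insert v U) v hT hmem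
    rw [her] at c1
    have hb : ∀ f, bk E (W ∪ insert v U) k f v ≤ D := fun f =>
      hD v (Finset.mem_insert_self _ _) _ k f hmem
    rw [Finset.card_insert_of_notMem hv, pow_succ]
    calc (k - D) ^ U.card * (k - D) * PP E W k = (k - D) * ((k - D) ^ U.card * PP E W k) := by
          ring
      _ ≤ (k - D) * PP E (W ∪ U) k := Nat.mul_le_mul_left _ i1
      _ = ∑ f ∈ CC E (W ∪ U) k, (k - D) := by
          rw [Finset.sum_const, smul_eq_mul, mul_comm]; rfl
      _ ≤ ∑ f ∈ CC E (W ∪ U) k, (k - bk E (W ∪ insert v U) k f v) :=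
          Finset.sum_le_sum fun f _ => Nat.sub_le_sub_left (hb f) k
      _ = PP E (W ∪ insert v U) k := c1.symm

end Pool.Agent.Helper5.FV
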